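import Pool.Agent.Helper5.FV.Stmts

set_option autoImplicit false

open Finset Pool.Agent.Helper8.UN

namespace Pool.Agent.Helper2.FV

open Pool.Agent.Helper5.FV

theorem st_REG : ST_REG := by
  intro n D0 r E W0 h
  refine ⟨?_, ?_, h.d0, h.r0⟩
  · intro e he
    exact h.two e (Finset.mem_filter.1 he).1
  · intro v
    by_cases hv : v ∈ W0
    · have h0 : ((E.filter (fun e => e ⊆ univ \ W0)).filter (fun e => v ∈ e ∧ e.card < r)) = ∅ := by
        rw [Finset.filter_eq_empty_iff]
        intro e he hve
        have h1 := (Finset.mem_filter.1 he).2 hve.1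
        rw [Finset.mem_sdiff] at h1
        exact h1.2 hv
      rw [h0]
      simp
    · refine le_trans (Finset.card_le_card ?_) (h.deg v hv)
      intro e he
      rw [Finset.mem_filter, Finset.mem_filter] at he
      exact Finset.mem_filter.2 ⟨he.1.1, he.2⟩

end Pool.Agent.Helper2.FV
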